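import Mathlib

open Polynomial Function

namespace Pool.Agent.Results.MP_a5410e_nt.TranslationSymmetry

/-- The set `C_f(α₁, α₂; β)` of parameters `l` in the algebraic closure of `L` such that `β` lies
in the strict forward orbits of `α₁` and of `α₂` under `x ↦ f(x) + l`. -/
def collisionSet {L : Type} [Field L] [Algebra (ZMod 2) L] (f : (ZMod 2)[X]) (α₁ α₂ β : L) :
    Set (AlgebraicClosure L) :=
  {l | ∃ m n : ℕ, 1 ≤ m ∧ 1 ≤ n ∧
    (fun x => aeval x f + l)^[m] (algebraMap L (AlgebraicClosure L) α₁) =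
      algebraMap L (AlgebraicClosure L) β ∧
    (fun x => aeval x f + l)^[n] (algebraMap L (AlgebraicClosure L) α₂) =
      algebraMap L (AlgebraicClosure L) β}

section
variable {K : Type} [Field K]

def g (l x : K) : K := (x ^ 2 + x) ^ 3 + x + l
def G (l u : K) : K := (u ^ 3 + l) ^ 2 + (u ^ 3 + l) + u

lemma semi (h2 : (2 : K) = 0) (l : K) : Semiconj (fun x : K => x ^ 2 + x) (g l) (G l) := by
  intro x
  simp only [g, G]
  linear_combination (((x ^ 2 + x) ^ 3 + l) * x) * h2

lemma g_add (h2 : (2 : K) = 0) (l x : K) : g l (x + 1) = g l x + 1 := by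
  have : (x + 1) ^ 2 + (x + 1) = x ^ 2 + x := by linear_combination (x + 1) * h2
  simp only [g, this]; ring

lemma iter_add (h2 : (2 : K) = 0) (l : K) (n : ℕ) (x : K) :
    (g l)^[n] (x + 1) = (g l)^[n] x + 1 := by
  induction n with
  | zero => rfl
  | succ n ih => rw [iterate_succ_apply', iterate_succ_apply', ih, g_add h2]

noncomputable def P (t : K) : ℕ → K[X]
  | 0 => C t
  | n + 1 => (P t n ^ 2 + P t n) ^ 3 + P t n + X

lemma P_eval (t l : K) (n : ℕ) : (P t n).eval l = (g l)^[n] t := by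
  induction n with
  | zero => simp [P]
  | succ n ih => rw [iterate_succ_apply', ← ih]; simp [P, g]

lemma P_deg (t : K) (n : ℕ) : n + 1 ≤ (P t (n + 1)).natDegree := by
  induction n with
  | zero =>
    have : P t 1 = X + C ((t ^ 2 + t) ^ 3 + t) := by simp [P]; ring
    rw [zero_add, this, natDegree_X_add_C]
  | succ n ih =>
    set q := P t (n + 1) with hq
    have d1 : (q ^ 2 + q).natDegree = 2 * q.natDegree := by
      rw [natDegree_add_eq_left_of_natDegree_lt, natDegree_pow]
      rw [natDegree_pow]; omega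
    have d2 : ((q ^ 2 + q) ^ 3 + q).natDegree = 6 * q.natDegree := by
      rw [natDegree_add_eq_left_of_natDegree_lt, natDegree_pow, d1]
      · ring
      · rw [natDegree_pow, d1]; omega
    rw [P, ← hq, natDegree_add_eq_left_of_natDegree_lt, d2]
    · omega
    · rw [d2, natDegree_X]; omega

lemma P_der (h2 : (2 : K) = 0) (t : K) (n : ℕ) :
    ((P t n).eval ((t ^ 2 + t) ^ 3 + 1)) ^ 2 + (P t n).eval ((t ^ 2 + t) ^ 3 + 1) = t ^ 2 + t ∧
    (t ^ 2 + t) ^ 2 * (derivative (P t n)).eval ((t ^ 2 + t) ^ 3 + 1) =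
      ((t ^ 2 + t) ^ 2 + 1) ^ n - 1 := by
  induction n with
  | zero => simp [P]
  | succ n ih =>
    obtain ⟨h1, h3⟩ := ih
    set x := (P t n).eval ((t ^ 2 + t) ^ 3 + 1) with hx
    set D := (derivative (P t n)).eval ((t ^ 2 + t) ^ 3 + 1) with hD
    have e1 : (P t (n + 1)).eval ((t ^ 2 + t) ^ 3 + 1) = x + 1 := by
      simp only [P, eval_add, eval_pow, eval_X, ← hx, h1]
      linear_combination ((t ^ 2 + t) ^ 3) * h2
    have e2 : (derivative (P t (n + 1))).eval ((t ^ 2 + t) ^ 3 + 1) =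
        ((t ^ 2 + t) ^ 2 + 1) * D + 1 := by
      simp only [P, derivative_add, derivative_pow, derivative_X, eval_add, eval_mul, eval_pow,
        eval_C, eval_one, ← hx, ← hD, h1]
      norm_num
      linear_combination ((t ^ 2 + t) ^ 2 * D * (3 * x + 1)) * h2
    refine ⟨by rw [e1]; linear_combination h1 + (x + 1) * h2, ?_⟩
    rw [e2, pow_succ _ n]
    linear_combination ((t ^ 2 + t) ^ 2 + 1) * h3

lemma exists_param [IsAlgClosed K] (h2 : (2 : K) = 0) (t : K)
    (ht : ∀ n, 1 ≤ n → ((t ^ 2 + t) ^ 2 + 1) ^ n - 1 ≠ 0) (p : ℕ) (hp : p.Prime) :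
    ∃ l, (g l)^[p] t = t + 1 ∧ minimalPeriod (G l) (t ^ 2 + t) = p := by
  obtain ⟨n, rfl⟩ : ∃ n, p = n + 1 := ⟨p - 1, by have := hp.pos; omega⟩
  have hn : 1 ≤ n := by have := hp.two_le; omega
  set l1 := (t ^ 2 + t) ^ 3 + 1 with hl1
  set Q := P t (n + 1) - C (t + 1) with hQ
  have dQ : 2 ≤ Q.natDegree := by
    rw [hQ, natDegree_sub_C]; have := P_deg t n; omega
  have hQ0 : Q ≠ 0 := by rintro h; rw [h] at dQ; simp at dQ
  obtain ⟨l, r1, r2⟩ : ∃ l, Q.eval l = 0 ∧ l ≠ l1 := by
    obtain ⟨q, h1, h3⟩ := exists_eq_pow_rootMultiplicity_mul_and_not_dvd Q hQ0 l1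
    by_cases hq : q.degree = 0
    · exfalso
      have hq0 : q ≠ 0 := by rintro rfl; simp at hq
      have e : 2 ≤ rootMultiplicity l1 Q := by
        have := congrArg natDegree h1
        rw [natDegree_mul (pow_ne_zero _ (X_sub_C_ne_zero _)) hq0, natDegree_pow, natDegree_X_sub_C,
          natDegree_eq_of_degree_eq_some (n := 0) hq] at this
        omega
      have := ((one_lt_rootMultiplicity_iff_isRoot hQ0).mp e).2
      rw [hQ, derivative_sub, derivative_C, sub_zero, IsRoot.def] at this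
      have h4 := (P_der h2 t (n + 1)).2
      rw [this, mul_zero] at h4
      exact ht _ (by omega) h4.symm
    · obtain ⟨l, hl⟩ := IsAlgClosed.exists_root q hq
      refine ⟨l, by rw [h1, eval_mul, hl.eq_zero, mul_zero], ?_⟩
      rintro rfl
      exact h3 (dvd_iff_isRoot.mpr hl)
  have r3 : (g l)^[n + 1] t = t + 1 := by
    rw [hQ, eval_sub, eval_C, P_eval, sub_eq_zero] at r1; exact r1
  refine ⟨l, r3, ?_⟩
  have per : IsPeriodicPt (G l) (n + 1) (t ^ 2 + t) := by
    have := (semi h2 l).iterate_right (n + 1) t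
    simp only [r3] at this
    rw [IsPeriodicPt, IsFixedPt, ← this]
    linear_combination (t + 1) * h2
  rcases (Nat.dvd_prime hp).mp per.minimalPeriod_dvd with h | h
  · exfalso
    have f1 : G l (t ^ 2 + t) = t ^ 2 + t := minimalPeriod_eq_one_iff_isFixedPt.mp h
    have f2 : ((t ^ 2 + t) ^ 3 + l) * ((t ^ 2 + t) ^ 3 + l + 1) = 0 := by
      simp only [G] at f1; linear_combination f1
    rcases mul_eq_zero.mp f2 with f3 | f3
    · have : IsFixedPt (g l) t := by simp only [IsFixedPt, g]; linear_combination f3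
      rw [(this.iterate _).eq] at r3
      simp at r3
    · exact r2 (by rw [hl1]; linear_combination f3 - ((t ^ 2 + t) ^ 3 + 1) * h2)
  · exact h

end

theorem result :
    ∃ (f : (ZMod 2)[X]) (α₁ α₂ β : RatFunc (ZMod 2)),
      2 ≤ f.natDegree ∧ f.coeff 0 = 0 ∧ (∀ i : ℕ, f.natDegree ≠ 2 ^ i) ∧
      Transcendental (ZMod 2) α₁ ∧ aeval α₁ f ≠ aeval α₂ f ∧
      (collisionSet f α₁ α₂ β).Infinite := by
  let L := RatFunc (ZMod 2)
  let K := AlgebraicClosure L
  have hL : (2 : L) = 0 := by
    have := congrArg (algebraMap (ZMod 2) L) (show (2 : ZMod 2) = 0 from rfl)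
    rwa [map_ofNat, map_zero] at this
  have hK : (2 : K) = 0 := by
    have := congrArg (algebraMap L K) hL
    rwa [map_ofNat, map_zero] at this
  have hd : ((X ^ 2 + X) ^ 3 + X : (ZMod 2)[X]).natDegree = 6 := by compute_degree!
  refine ⟨(X ^ 2 + X) ^ 3 + X, RatFunc.X, RatFunc.X + 1, RatFunc.X, by omega,
    by simp [coeff_zero_eq_eval_zero], fun i hi => ?_, RatFunc.transcendental_X, ?_, ?_⟩
  · rw [hd] at hi
    have : 3 ∣ 2 ^ i := hi ▸ by norm_num
    have := Nat.prime_three.dvd_of_dvd_pow this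
    omega
  · have := g_add hL 0 (RatFunc.X : L)
    simp only [g, add_zero] at this
    simp [this]
  · let t : K := algebraMap L K RatFunc.X
    have ht : ∀ n, 1 ≤ n → ((t ^ 2 + t) ^ 2 + 1) ^ n - 1 ≠ 0 := by
      intro n hn
      let φ : (ZMod 2)[X] →+* K := (algebraMap L K).comp (algebraMap _ _)
      have hφ : Injective φ := (algebraMap L K).injective.comp (IsFractionRing.injective _ _)
      have h1 : (((X ^ 2 + X) ^ 2 + 1) ^ n - 1 : (ZMod 2)[X]) ≠ 0 := by
        intro h
        have h3 := congrArg natDegree (sub_eq_zero.mp h)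
        have h4 : ((X ^ 2 + X) ^ 2 + 1 : (ZMod 2)[X]).natDegree = 4 := by compute_degree!
        rw [natDegree_pow, h4, natDegree_one] at h3
        omega
      have h5 : φ X = t := congrArg (algebraMap L K) RatFunc.algebraMap_X
      simpa [h5] using (map_ne_zero_iff φ hφ).mpr h1
    choose l hl using fun p : {p : ℕ // p.Prime} => exists_param hK t ht p.1 p.2
    have : Infinite {p : ℕ // p.Prime} := Nat.infinite_setOfPred_prime.to_subtype
    refine Set.infinite_of_injective_forall_mem (f := l) (fun p q h => ?_) fun p => ?_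
    · exact Subtype.ext (by rw [← (hl p).2, ← (hl q).2, h])
    · have e : (fun x : K => aeval x ((X ^ 2 + X) ^ 3 + X : (ZMod 2)[X]) + l p) = g (l p) := by
        ext x; simp [g]
      have hp := p.2.pos
      refine ⟨p + p, p, by omega, by omega, ?_, ?_⟩
      · rw [e, iterate_add_apply]
        change (g (l p))^[p] ((g (l p))^[p] t) = t
        rw [(hl p).1, iter_add hK, (hl p).1]
        linear_combination hK
      · rw [e, map_add, map_one]
        change (g (l p))^[p] (t + 1) = t
        rw [iter_add hK, (hl p).1]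
        linear_combination hK

end Pool.Agent.Results.MP_a5410e_nt.TranslationSymmetry
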